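import Mathlib
import Pool.Agent.Q282.SnRoots

/-!
# `S_n(m,1)` is real-rooted and log-concave (Q2)

For odd `n = 2 r + 1 ≥ 3` the polynomial `S_n(m,1)` of the problem has the closed form
`S_n(m,1) = (1/2) m ∏_{j=1}^{r} (m + j) · ( ∏_{j=1}^{r} (m + j) / (r!)^2 - 4^r ∏_{j=1}^{r} (m + j - 1/2) / (2r+1)! )`,
all its complex zeros are real and `≤ 0`, and its coefficient sequence is nonnegative and
log-concave.

Proof. With `a_i = ((m, i))` one has
`(i+1) a_{i+1} (n-i) a_{n-i} - i a_i (n-i+1) a_{n-i+1} = m (n-2i) a_i a_{n-i}`, so that the sum of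
`(n-2i) a_i a_{n-i}` over `i ≤ r` is `(r+1)^2 a_{r+1}^2 / m`, while the sum of `a_i a_{n-i}` over
`i ≤ r` is half of `((2m, n))`. The zeros `-1, ..., -r` and `-1/2, ..., -(r-1/2)` of the two products
in the bracket interlace and the first leading coefficient is larger; so the bracket has sign
`(-1)^(j+1)` at `-j`, `1 ≤ j ≤ r`, is positive at `0`, and all its zeros are real and negative.
-/

namespace Pool.Agent.Results.MP_523fe6_co.LogConcaveAtOne

open Polynomial Finset Pool.Agent.Q282.SnM Pool.Agent.Q282.PF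

/-- For every odd `n = 2 r + 1 ≥ 3`: the closed form of `S_n(m,1)`; all complex zeros of `S_n(m,1)`
are real and `≤ 0`; its coefficients are nonnegative and form a log-concave sequence. -/
theorem result (r : ℕ) (hr : 1 ≤ r) :
    (Sbiv r).eval 1 = C (1 / 2 : ℚ) * X * (∏ j ∈ range r, (X + C ((j : ℚ) + 1))) *
      (C (((r.factorial : ℚ) ^ 2)⁻¹) * (∏ j ∈ range r, (X + C ((j : ℚ) + 1))) -
        C ((((2 * r + 1).factorial : ℚ)⁻¹) * 4 ^ r) * ∏ j ∈ range r, (X + C ((j : ℚ) + 1 / 2))) ∧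
    (∀ z : ℂ, aeval z ((Sbiv r).eval 1) = 0 → z.im = 0 ∧ z.re ≤ 0) ∧
    (∀ l, 0 ≤ ((Sbiv r).eval 1).coeff l) ∧
    (∀ l, ((Sbiv r).eval 1).coeff l * ((Sbiv r).eval 1).coeff (l + 2) ≤
      ((Sbiv r).eval 1).coeff (l + 1) ^ 2) := by
  have hcl := closed r
  refine ⟨hcl, ?_⟩
  -- real factorisation
  obtain ⟨a, s, ha, hs, hf⟩ := factor_PR r hr
  set u : Multiset ℝ := 0 ::ₘ ((Multiset.range r).map (fun j : ℕ => (j : ℝ) + 1) + s) with hu
  have hu0 : ∀ c ∈ u, 0 ≤ c := by
    intro c hc
    rcases Multiset.mem_cons.1 hc with h | h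
    · rw [h]
    · rcases Multiset.mem_add.1 h with h | h
      · obtain ⟨j, _, rfl⟩ := Multiset.mem_map.1 h
        positivity
      · exact hs c h
  have hmap : ((Sbiv r).eval 1).map (algebraMap ℚ ℝ) =
      C (1 / 2 * a) * (u.map (fun c => X + C c)).prod := by
    have h1 : (A r).map (algebraMap ℚ ℝ) = AR r := by
      unfold A AR
      rw [Polynomial.map_prod]
      simp
    have h2 : (B r).map (algebraMap ℚ ℝ) = BR r := by
      unfold B BR
      rw [Polynomial.map_prod]
      simp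
    have h3 : ((Multiset.range r).map (fun j : ℕ => (X + C ((j : ℝ) + 1) : ℝ[X]))).prod = AR r := rfl
    rw [hcl, hu, Multiset.map_cons, Multiset.map_add, Multiset.map_map, Multiset.prod_cons,
      Multiset.prod_add]
    rw [Polynomial.map_mul, Polynomial.map_mul, Polynomial.map_mul, Polynomial.map_sub,
      Polynomial.map_mul, Polynomial.map_mul, h1, h2, map_X, map_C, map_C, map_C]
    have e1 : (algebraMap ℚ ℝ) (((r.factorial : ℚ) ^ 2)⁻¹) = al r := by
      unfold al; simp
    have e2 : (algebraMap ℚ ℝ) (((2 * r + 1).factorial : ℚ)⁻¹ * 4 ^ r) = be r := by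
      unfold be; simp
    have e3 : (algebraMap ℚ ℝ) (1 / 2 : ℚ) = 1 / 2 := by simp
    rw [e1, e2, e3]
    have e4 : C (al r) * AR r - C (be r) * BR r = C a * (s.map (fun c => X + C c)).prod := hf
    rw [e4]
    have e5 : (Multiset.map ((fun c => (X + C c : ℝ[X])) ∘ fun j : ℕ => (j : ℝ) + 1)
        (Multiset.range r)).prod = AR r := h3
    rw [e5, C_mul, C_0, add_zero]
    ring
  have hpf : PF2 (((Sbiv r).eval 1).map (algebraMap ℚ ℝ)) := by
    rw [hmap]
    exact (pf2_C (by positivity)).mul_prod u hu0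
  have hco : ∀ l, (((Sbiv r).eval 1).map (algebraMap ℚ ℝ)).coeff l =
      ((((Sbiv r).eval 1).coeff l : ℚ) : ℝ) := by
    intro l
    rw [coeff_map]
    rfl
  refine ⟨?_, ?_, ?_⟩
  · intro z hz
    have h1 : aeval z (((Sbiv r).eval 1).map (algebraMap ℚ ℝ)) = 0 := by
      rw [aeval_map_algebraMap]; exact hz
    rw [hmap, map_mul, aeval_C] at h1
    have h2 : (algebraMap ℝ ℂ) (1 / 2 * a) ≠ 0 := by
      have : (1 / 2 * a : ℝ) ≠ 0 := by positivity
      simpa using this
    have h3 := (mul_eq_zero.1 h1).resolve_left h2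
    rw [map_multiset_prod, Multiset.map_map, Multiset.prod_eq_zero_iff] at h3
    obtain ⟨c, hc, hc2⟩ := Multiset.mem_map.1 h3
    simp only [Function.comp, map_add, aeval_X, aeval_C] at hc2
    have hz' : z = ((-c : ℝ) : ℂ) := by
      have : z = -(algebraMap ℝ ℂ) c := eq_neg_of_add_eq_zero_left hc2
      rw [this]; simp
    rw [hz']
    refine ⟨Complex.ofReal_im _, ?_⟩
    rw [Complex.ofReal_re]
    have := hu0 c hc
    linarith
  · intro l
    have := hpf.1 l
    rw [hco] at this
    exact_mod_cast this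
  · intro l
    have := hpf.logConcave l
    rw [hco, hco, hco] at this
    exact_mod_cast this

end Pool.Agent.Results.MP_523fe6_co.LogConcaveAtOne
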